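import Pool.Agent.Lib_MP_b8ab30.Pig

/-!
# Countable-to-one homomorphisms instead of reductions (MP_b8ab30_lc)

The proof of `Pool.MPb8ab30.main` uses of a Borel reduction `f` of `F c` to `E` only that it is a homomorphism with countable fibres.
This file repeats the steps of the library which mention the reduction (`exists_code`, `avoid`, `exists_datum`, `main`) with this weaker
hypothesis.  It gives that the restriction of `E` to some invariant Borel set of full measure is not even weakly universal.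
-/

set_option autoImplicit false

open MeasureTheory ProbabilityTheory

namespace Pool.MPb8ab30

private theorem nu_null (c : T) : NullSingletonClass nu := by
  refine ⟨fun z => ?_⟩
  refine measure_mono_null ?_ (nu_class c z)
  rintro x rfl
  exact (cber_F c).equiv.refl x

theorem exists_code_weak {X : Type} [MeasurableSpace X] [StandardBorelSpace X] (Ψ : W × Y → X × ℕ) (hΨ : Measurable Ψ)
    (hΨ' : ∀ f : Y → X × ℕ, Measurable f → ∃ w : W, ∀ᵐ y ∂nu, Ψ (w, y) = f y)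
    (E : X → X → Prop) (hE : CBER E) (c : T) (t : ℕ → X × ℕ → X × ℕ) (ht : ∀ n, Measurable (t n))
    (hd : ∀ (σ : Measure (X × ℕ)), IsFiniteMeasure σ → ∀ T₀ : X × ℕ → X × ℕ, Measurable T₀ → (∀ x, Et E x (T₀ x)) →
        ∀ ε : ENNReal, ε ≠ 0 → ∃ n, σ {x | t n x ≠ T₀ x} ≤ ε)
    (ε : ENNReal) (hε : ε ≠ 0) (f : Y → X) (hf : Measurable f)
    (hfE : ∀ y z, F c y z → E (f y) (f z)) (hcount : ∀ x, (f ⁻¹' {x}).Countable) :
    ∃ n : Fin 6 → ℕ, ∃ w ∈ Rset Ψ E c (fun s => t (n s)) ε, ∀ᵐ y ∂nu, (Ψ (w, y)).1 = f y := by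
  haveI := nu_null c
  obtain ⟨h, hh, hinj⟩ := lusin_novikov f hf hcount
  set g : Y → X × ℕ := fun y => (f y, h y) with hg
  have hgm : Measurable g := hf.prodMk hh
  have hge : MeasurableEmbedding g := hgm.measurableEmbedding hinj
  have hEt : ∀ j y, Et E (g y) (g (gen c j y)) := by
    intro j y
    exact hE.equiv.symm (hfE _ _ (F_gen c j y))
  have hT : ∀ s : Fin 6, ∃ n : ℕ, nu {y | t n (g y) ≠ g (gen c (six s) y)} ≤ ε := by
    intro s
    have hfin : IsFiniteMeasure (nu.map g) := inferInstance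
    obtain ⟨n, hn⟩ := hd (nu.map g) hfin (Function.extend g (fun y => g (gen c (six s) y)) fun x => x)
      (hge.measurable_extend (hgm.comp (measurable_gen c _)) measurable_id)
      (fun x => by
        by_cases hx : ∃ y, g y = x
        · obtain ⟨y, rfl⟩ := hx
          rw [hinj.extend_apply]
          exact hEt _ y
        · rw [Function.extend_apply' _ _ _ hx]
          exact hE.equiv.refl x.1) ε hε
    refine ⟨n, le_trans (le_trans (le_of_eq ?_) (Measure.le_map_apply hgm.aemeasurable _)) hn⟩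
    congr 1
    ext y
    change t n (g y) ≠ g (gen c (six s) y) ↔
      t n (g y) ≠ Function.extend g (fun y => g (gen c (six s) y)) (fun x => x) (g y)
    rw [hinj.extend_apply]
  choose n hn using hT
  obtain ⟨w, hw⟩ := hΨ' g hgm
  have hwj : ∀ j, ∀ᵐ y ∂nu, Ψ (w, gen c j y) = g (gen c j y) := fun j =>
    (mp_gen c j).quasiMeasurePreserving.ae hw
  refine ⟨n, w, ⟨fun j => ?_, ?_, fun s => ?_⟩, ?_⟩
  · filter_upwards [hw, hwj j] with y h1 h2
    rw [h1, h2]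
    exact hfE _ _ (F_gen c j y)
  · have h0 : (nu.prod nu) {p : Y × Y | E (f p.1) (f p.2)} = 0 := by
      have hm : MeasurableSet {p : Y × Y | E (f p.1) (f p.2)} := by
        have h1 : Measurable fun p : Y × Y => (f p.1, f p.2) :=
          (hf.comp measurable_fst).prodMk (hf.comp measurable_snd)
        exact h1 hE.meas
      rw [Measure.measure_prod_null hm]
      refine Filter.Eventually.of_forall fun y => ?_
      have h2 : (Prod.mk y ⁻¹' {p : Y × Y | E (f p.1) (f p.2)}).Countable := by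
        have h3 : Prod.mk y ⁻¹' {p : Y × Y | E (f p.1) (f p.2)} ⊆ ⋃ x ∈ {x | E (f y) x}, f ⁻¹' {x} := by
          intro z hz
          exact Set.mem_biUnion (x := f z) hz rfl
        exact ((hE.count (f y)).biUnion fun x _ => hcount x).mono h3
      exact h2.measure_zero nu
    rw [← h0]
    refine measure_congr ?_
    filter_upwards [Measure.quasiMeasurePreserving_fst.ae hw, Measure.quasiMeasurePreserving_snd.ae hw] with p h1 h2
    refine propext ?_
    change E (Ψ (w, p.1)).1 (Ψ (w, p.2)).1 ↔ E (f p.1) (f p.2)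
    rw [h1, h2]
  · refine le_trans (le_of_eq ?_) (hn s)
    refine measure_congr ?_
    filter_upwards [hw, hwj (six s)] with y h1 h2
    refine propext ?_
    change Ψ (w, gen c (six s) y) ≠ t (n s) (Ψ (w, y)) ↔ t (n s) (g y) ≠ g (gen c (six s) y)
    rw [h1, h2]
    exact ne_comm
  · filter_upwards [hw] with y h1
    rw [h1]


theorem avoid_weak {X : Type} [MeasurableSpace X] [StandardBorelSpace X] (μ : Measure X) [IsProbabilityMeasure μ]
    (E : X → X → Prop) (hE : CBER E) (θ : ℕ → X ≃ᵐ X) (hθ : Gen E θ) (hm : ∀ k, MeasurePreserving (θ k) μ μ) (c : T)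
    (hU : ∀ A : Set X, MeasurableSet A → (∀ x y, E x y → (x ∈ A ↔ y ∈ A)) → μ A = 1 →
      ∃ f : Y → X, Measurable f ∧ (∀ y, f y ∈ A) ∧ (∀ y z, F c y z → E (f y) (f z)) ∧ ∀ x, (f ⁻¹' {x}).Countable)
    (t : ℕ → X × ℕ → X × ℕ) (ht : ∀ n, Measurable (t n))
    (hd : ∀ (σ : Measure (X × ℕ)), IsFiniteMeasure σ → ∀ T₀ : X × ℕ → X × ℕ, Measurable T₀ → (∀ x, Et E x (T₀ x)) →
        ∀ ε : ENNReal, ε ≠ 0 → ∃ n, σ {x | t n x ≠ T₀ x} ≤ ε)
    (Ψ : W × Y → X × ℕ) (hΨ : Measurable Ψ)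
    (hΨ' : ∀ f : Y → X × ℕ, Measurable f → ∃ w : W, ∀ᵐ y ∂nu, Ψ (w, y) = f y)
    (ε : ENNReal) (hε : ε ≠ 0) :
    ∃ n : Fin 6 → ℕ, ∀ N, MeasurableSet N → μ N = 0 →
      ∃ w ∈ Rset Ψ E c (fun s => t (n s)) ε, nu {y | (Ψ (w, y)).1 ∈ N} < 1 := by
  by_contra hcon
  have hcon' : ∀ n : Fin 6 → ℕ, ∃ N, MeasurableSet N ∧ μ N = 0 ∧
      ∀ w ∈ Rset Ψ E c (fun s => t (n s)) ε, 1 ≤ nu {y | (Ψ (w, y)).1 ∈ N} := by
    intro n
    by_contra h
    refine hcon ⟨n, fun N hN hN0 => ?_⟩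
    by_contra h'
    refine h ⟨N, hN, hN0, fun w hw => ?_⟩
    by_contra h''
    exact h' ⟨w, hw, not_le.1 h''⟩
  choose N hN hN0 hN1 using hcon'
  have hMm : MeasurableSet (⋃ n, N n) := MeasurableSet.iUnion hN
  have hM0 : μ (⋃ n, N n) = 0 := measure_iUnion_null hN0
  have hM'm : MeasurableSet (⋃ k, (θ k) ⁻¹' (⋃ n, N n)) := MeasurableSet.iUnion fun k => (θ k).measurable hMm
  have hM'0 : μ (⋃ k, (θ k) ⁻¹' (⋃ n, N n)) = 0 := by
    refine measure_iUnion_null fun k => ?_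
    rw [(hm k).measure_preimage hMm.nullMeasurableSet]
    exact hM0
  have hinv : ∀ x y, E x y → y ∈ (⋃ k, (θ k) ⁻¹' (⋃ n, N n)) → x ∈ (⋃ k, (θ k) ⁻¹' (⋃ n, N n)) := by
    intro x y hxy hy
    obtain ⟨k, hk⟩ := Set.mem_iUnion.1 hy
    obtain ⟨l, hl⟩ := hθ.cover x (θ k y) (hθ.equiv.trans hxy (hθ.sub k y))
    refine Set.mem_iUnion.2 ⟨l, ?_⟩
    rw [Set.mem_preimage, hl]
    exact hk
  have hsub : (⋃ n, N n) ⊆ ⋃ k, (θ k) ⁻¹' (⋃ n, N n) := by
    intro x hx
    obtain ⟨l, hl⟩ := hθ.cover x x (hθ.equiv.refl x)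
    refine Set.mem_iUnion.2 ⟨l, ?_⟩
    rw [Set.mem_preimage, hl]
    exact hx
  obtain ⟨f, hf, hfA, hfE, hfc⟩ := hU (⋃ k, (θ k) ⁻¹' (⋃ n, N n))ᶜ hM'm.compl
    (fun x y hxy => by
      rw [Set.mem_compl_iff, Set.mem_compl_iff]
      exact not_congr ⟨hinv y x (hθ.equiv.symm hxy), hinv x y hxy⟩)
    (by rw [prob_compl_eq_one_iff hM'm]; exact hM'0)
  obtain ⟨n, w, hw, hwf⟩ := exists_code_weak Ψ hΨ hΨ' E hE c t ht hd ε hε f hf hfE hfc
  have h1 := hN1 n w hw
  have h0 : nu {y | (Ψ (w, y)).1 ∈ N n} = 0 := by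
    have h2 : ∀ᵐ y ∂nu, (Ψ (w, y)).1 ∉ N n := by
      filter_upwards [hwf] with y hy hy'
      rw [hy] at hy'
      exact hfA y (hsub (Set.mem_iUnion.2 ⟨n, hy'⟩))
    have h3 := ae_iff.1 h2
    simpa only [not_not] using h3
  rw [h0] at h1
  exact absurd h1 (by simp)


private theorem RanW_decomp {X : Type} [MeasurableSpace X] (μ σ : Measure X) [SigmaFinite μ] [IsFiniteMeasure σ] :
    ∃ N, MeasurableSet N ∧ μ N = 0 ∧ ∀ A, MeasurableSet A → μ A = 0 → σ (A \ N) = 0 := by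
  obtain ⟨S, hS, h1, h2⟩ := Measure.mutuallySingular_singularPart σ μ
  refine ⟨Sᶜ, hS.compl, h2, fun A hA h0 => ?_⟩
  have h3 : A \ Sᶜ = A ∩ S := by
    rw [Set.sdiff_eq, compl_compl]
  rw [h3, Measure.haveLebesgueDecomposition_add σ μ, Measure.add_apply]
  have h4 : σ.singularPart μ (A ∩ S) = 0 := measure_mono_null Set.inter_subset_right h1
  have h5 : (μ.withDensity (σ.rnDeriv μ)) (A ∩ S) = 0 :=
    withDensity_absolutelyContinuous μ _ (measure_mono_null Set.inter_subset_left h0)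
  rw [h4, h5, add_zero]

private theorem RanW_inv {X : Type} [MeasurableSpace X] (μ : Measure X) (E : X → X → Prop) (θ : ℕ → X ≃ᵐ X)
    (hθ : Gen E θ) (hm : ∀ k, MeasurePreserving (θ k) μ μ) (N : Set X) (hN : MeasurableSet N) (h0 : μ N = 0) :
    ∃ N', MeasurableSet N' ∧ μ N' = 0 ∧ N ⊆ N' ∧ ∀ x y, E x y → (x ∈ N' ↔ y ∈ N') := by
  refine ⟨⋃ k, (θ k) ⁻¹' N, MeasurableSet.iUnion fun k => (θ k).measurable hN, ?_, ?_, ?_⟩
  · rw [measure_iUnion_null_iff]
    intro k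
    rw [(hm k).measure_preimage hN.nullMeasurableSet, h0]
  · intro x hx
    obtain ⟨k, hk⟩ := hθ.cover x x (hθ.equiv.refl x)
    refine Set.mem_iUnion.2 ⟨k, ?_⟩
    show θ k x ∈ N
    rwa [hk]
  · have key : ∀ x y, E x y → x ∈ ⋃ k, (θ k) ⁻¹' N → y ∈ ⋃ k, (θ k) ⁻¹' N := by
      intro x y h hx
      obtain ⟨k, hk⟩ := Set.mem_iUnion.1 hx
      obtain ⟨l, hl⟩ := hθ.cover y (θ k x) (hθ.equiv.trans (hθ.equiv.symm h) (hθ.sub k x))
      refine Set.mem_iUnion.2 ⟨l, ?_⟩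
      show θ l y ∈ N
      rw [hl]
      exact hk
    exact fun x y h => ⟨key x y h, key y x (hθ.equiv.symm h)⟩

/-- the kernel `w ↦` law of `(Ψ (w, y)).1` -/
private noncomputable def RanW_ker {X : Type} [MeasurableSpace X] (Ψ : W × Y → X × ℕ) (hΨ : Measurable Ψ) (Q : Set W) :
    Kernel Q X where
  toFun w := nu.map fun y => (Ψ (w.1, y)).1
  measurable' := by
    refine Measure.measurable_of_measurable_coe _ fun B hB => ?_
    have h1 : ∀ w : Q, (nu.map fun y => (Ψ (w.1, y)).1) B = nu (Prod.mk w.1 ⁻¹' {p : W × Y | (Ψ p).1 ∈ B}) := by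
      intro w
      have hw : Measurable fun y => (Ψ (w.1, y)).1 := measurable_fst.comp (hΨ.comp measurable_prodMk_left)
      rw [Measure.map_apply hw hB]
      rfl
    simp only [h1]
    have h2 : MeasurableSet {p : W × Y | (Ψ p).1 ∈ B} := (measurable_fst.comp hΨ) hB
    exact (measurable_measure_prodMk_left (ν := nu) h2).comp measurable_subtype_coe

private theorem RanW_ker_apply {X : Type} [MeasurableSpace X] (Ψ : W × Y → X × ℕ) (hΨ : Measurable Ψ) (Q : Set W)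
    (w : Q) (B : Set X) (hB : MeasurableSet B) : RanW_ker Ψ hΨ Q w B = nu {y | (Ψ (w.1, y)).1 ∈ B} := by
  show (nu.map fun y => (Ψ (w.1, y)).1) B = _
  have hw : Measurable fun y => (Ψ (w.1, y)).1 := measurable_fst.comp (hΨ.comp measurable_prodMk_left)
  rw [Measure.map_apply hw hB]
  rfl

private instance RanW_ker_markov {X : Type} [MeasurableSpace X] (Ψ : W × Y → X × ℕ) (hΨ : Measurable Ψ) (Q : Set W) :
    IsMarkovKernel (RanW_ker Ψ hΨ Q) := by
  refine ⟨fun w => ?_⟩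
  show IsProbabilityMeasure (nu.map fun y => (Ψ (w.1, y)).1)
  exact Measure.isProbabilityMeasure_map (measurable_fst.comp (hΨ.comp measurable_prodMk_left)).aemeasurable

private theorem RanW_meas {X : Type} [MeasurableSpace X] (Ψ : W × Y → X × ℕ) (hΨ : Measurable Ψ) (B : Set X)
    (hB : MeasurableSet B) : Measurable fun w : W => nu {y | (Ψ (w, y)).1 ∈ B} := by
  have h2 : MeasurableSet {p : W × Y | (Ψ p).1 ∈ B} := (measurable_fst.comp hΨ) hB
  have h1 : ∀ w : W, {y | (Ψ (w, y)).1 ∈ B} = Prod.mk w ⁻¹' {p : W × Y | (Ψ p).1 ∈ B} := fun w => rfl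
  simp only [h1]
  exact measurable_measure_prodMk_left (ν := nu) h2

/-- the mixed law and its values -/
private theorem RanW_sig {X : Type} [MeasurableSpace X] (Ψ : W × Y → X × ℕ) (hΨ : Measurable Ψ) (Q : Set W)
    (P₀ : Measure Q) (B : Set X) (hB : MeasurableSet B) :
    (P₀.bind (RanW_ker Ψ hΨ Q)) B = ∫⁻ w, nu {y | (Ψ (w, y)).1 ∈ B} ∂(P₀.map Subtype.val) := by
  rw [Measure.bind_apply hB (RanW_ker Ψ hΨ Q).measurable.aemeasurable]
  rw [lintegral_map (RanW_meas Ψ hΨ B hB) measurable_subtype_coe]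
  exact lintegral_congr fun w => RanW_ker_apply Ψ hΨ Q w B hB

theorem exists_datum_weak {X : Type} [MeasurableSpace X] [StandardBorelSpace X] (μ : Measure X) [IsProbabilityMeasure μ]
    (E : X → X → Prop) (hE : CBER E) (θ : ℕ → X ≃ᵐ X) (hθ : Gen E θ) (hm : ∀ k, MeasurePreserving (θ k) μ μ) (c : T)
    (hc : NonTor c)
    (hU : ∀ A : Set X, MeasurableSet A → (∀ x y, E x y → (x ∈ A ↔ y ∈ A)) → μ A = 1 →
      ∃ f : Y → X, Measurable f ∧ (∀ y, f y ∈ A) ∧ (∀ y z, F c y z → E (f y) (f z)) ∧ ∀ x, (f ⁻¹' {x}).Countable)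
    (t : ℕ → X × ℕ → X × ℕ) (ht : ∀ n, Measurable (t n))
    (hd : ∀ (σ : Measure (X × ℕ)), IsFiniteMeasure σ → ∀ T₀ : X × ℕ → X × ℕ, Measurable T₀ → (∀ x, Et E x (T₀ x)) →
        ∀ ε : ENNReal, ε ≠ 0 → ∃ n, σ {x | t n x ≠ T₀ x} ≤ ε)
    (ε : ENNReal) (hε : ε ≠ 0) :
    ∃ n : Fin 6 → ℕ, ∃ (P : Measure W) (Φ : Y × W → X × ℕ), IsDatum (Et E) (mt μ) c (fun s => t (n s)) ε P Φ := by
  have hne : Nonempty X := nonempty_of_isProbabilityMeasure μ
  obtain ⟨Ψ, hΨ, hΨ'⟩ := codes (V := Y) (Z := X × ℕ) nu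
  obtain ⟨n, hn⟩ := avoid_weak μ E hE θ hθ hm c hU t ht hd Ψ hΨ hΨ' ε hε
  have hQ : MeasurableSet (Rset Ψ E c (fun s => t (n s)) ε) :=
    measurableSet_Rset Ψ hΨ E hE.meas c _ (fun s => ht _) ε
  generalize hQdef : Rset Ψ E c (fun s => t (n s)) ε = Q at hQ hn
  have hQ1 : ∀ w ∈ Q, (∀ j : J, ∀ᵐ y ∂nu, E (Ψ (w, gen c j y)).1 (Ψ (w, y)).1) ∧
      (nu.prod nu) {p : Y × Y | E (Ψ (w, p.1)).1 (Ψ (w, p.2)).1} = 0 ∧
      ∀ s : Fin 6, nu {y | Ψ (w, gen c (six s) y) ≠ t (n s) (Ψ (w, y))} ≤ ε := by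
    intro w hw
    rw [← hQdef] at hw
    exact hw
  have hsec : ∀ w : W, Measurable fun y => Ψ (w, y) := fun w => hΨ.comp measurable_prodMk_left
  have : StandardBorelSpace Q := hQ.standardBorel
  obtain ⟨P₀, hP₀, t₀, ht₀, hcap⟩ := capacity μ (RanW_ker Ψ hΨ Q) (by
    intro N hN h0
    obtain ⟨w, hw, hlt⟩ := hn N hN h0
    refine ⟨⟨w, hw⟩, ?_⟩
    rw [RanW_ker_apply Ψ hΨ Q _ N hN]
    exact hlt)
  set P₁ : Measure W := P₀.map Subtype.val with hP₁
  have hP₁p : IsProbabilityMeasure P₁ := Measure.isProbabilityMeasure_map measurable_subtype_coe.aemeasurable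
  have hP₁Q : ∀ᵐ w ∂P₁, w ∈ Q := by
    rw [hP₁]
    exact (ae_map_iff (p := fun w => w ∈ Q) measurable_subtype_coe.aemeasurable hQ).2
      (Filter.Eventually.of_forall fun w => w.2)
  set σ : Measure X := P₀.bind (RanW_ker Ψ hΨ Q) with hσ
  have hσf : IsProbabilityMeasure σ := by
    rw [hσ]
    infer_instance
  have hσB : ∀ B, MeasurableSet B → σ B = ∫⁻ w, nu {y | (Ψ (w, y)).1 ∈ B} ∂P₁ :=
    fun B hB => RanW_sig Ψ hΨ Q P₀ B hB
  have hmB : ∀ B, MeasurableSet B → Measurable fun w : W => nu {y | (Ψ (w, y)).1 ∈ B} :=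
    fun B hB => RanW_meas Ψ hΨ B hB
  obtain ⟨N₀, hN₀, hN₀0, hN₀σ⟩ := RanW_decomp μ σ
  obtain ⟨N₁, hN₁, hN₁0, hN₀₁, hN₁E⟩ := RanW_inv μ E θ hθ hm N₀ hN₀ hN₀0
  -- the zero-one law
  have h01 : ∀ w ∈ Q, nu {y | (Ψ (w, y)).1 ∈ N₁ᶜ} = 0 ∨ nu {y | (Ψ (w, y)).1 ∈ N₁ᶜ} = 1 := by
    intro w hw
    refine zero_one c hc _ ((measurable_fst.comp (hsec w)) hN₁.compl) fun a => ?_
    filter_upwards [(hQ1 w hw).1 (Sum.inl a)] with y hy
    have h1 := hN₁E _ _ hy
    exact not_congr h1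
  set Ω : Set W := {w | w ∈ Q ∧ nu {y | (Ψ (w, y)).1 ∈ N₁ᶜ} = 1} with hΩ
  have hΩm : MeasurableSet Ω := hQ.inter ((hmB _ hN₁.compl) (measurableSet_singleton 1))
  have hΩ0 : P₁ Ω ≠ 0 := by
    intro h0
    have h1 := hcap N₁ hN₁ hN₁0
    rw [hσB _ hN₁.compl] at h1
    have h2 : ∫⁻ w, nu {y | (Ψ (w, y)).1 ∈ N₁ᶜ} ∂P₁ = 0 := by
      rw [lintegral_eq_zero_iff (hmB _ hN₁.compl)]
      have h3 : ∀ᵐ w ∂P₁, w ∉ Ω := by
        rw [ae_iff]
        simpa using h0
      filter_upwards [hP₁Q, h3] with w hw1 hw2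
      rcases h01 w hw1 with h | h
      · exact h
      · exact absurd ⟨hw1, h⟩ hw2
    rw [h2] at h1
    have h4 := ENNReal.ofReal_eq_zero.1 (le_antisymm h1 bot_le)
    exact absurd ht₀ (not_lt.2 h4)
  set P : Measure W := ProbabilityTheory.cond P₁ Ω with hP
  have hPp : IsProbabilityMeasure P := cond_isProbabilityMeasure hΩ0
  have hPΩ : ∀ᵐ w ∂P, w ∈ Ω := ae_cond_mem hΩm
  have hPac : P ≪ P₁ := cond_absolutelyContinuous
  have hΦm : Measurable fun u : Y × W => Ψ (u.2, u.1) := hΨ.comp measurable_swap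
  have hgen : ∀ j, Measurable fun u : Y × W => Ψ (u.2, gen c j u.1) := fun j =>
    hΨ.comp (measurable_snd.prodMk ((measurable_gen c j).comp measurable_fst))
  refine ⟨n, P, fun u => Ψ (u.2, u.1), hPp, hΦm, ?_, ?_, ?_, ?_⟩
  · intro j
    have hms : MeasurableSet {u : Y × W | E (Ψ (u.2, gen c j u.1)).1 (Ψ (u.2, u.1)).1} :=
      ((measurable_fst.comp (hgen j)).prodMk (measurable_fst.comp hΦm)) hE.meas
    have h1 : ∀ᵐ u ∂(nu.prod P), E (Ψ (u.2, gen c j u.1)).1 (Ψ (u.2, u.1)).1 := by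
      rw [ae_iff]
      have h2 : MeasurableSet {u : Y × W | ¬ E (Ψ (u.2, gen c j u.1)).1 (Ψ (u.2, u.1)).1} := hms.compl
      rw [Measure.prod_apply_symm h2, lintegral_eq_zero_iff (measurable_measure_prodMk_right h2)]
      filter_upwards [hPΩ] with w hw
      exact ae_iff.1 ((hQ1 w hw.1).1 j)
    exact h1
  · filter_upwards [hPΩ] with w hw
    exact (hQ1 w hw.1).2.1
  · intro s
    have h2 : MeasurableSet {u : Y × W | Ψ (u.2, gen c (six s) u.1) ≠ t (n s) (Ψ (u.2, u.1))} :=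
      (measurableSet_eq_fun (hgen (six s)) ((ht (n s)).comp hΦm)).compl
    show (nu.prod P) {u : Y × W | Ψ (u.2, gen c (six s) u.1) ≠ t (n s) (Ψ (u.2, u.1))} ≤ ε
    rw [Measure.prod_apply_symm h2]
    calc ∫⁻ w, nu ((fun y => (y, w)) ⁻¹' {u : Y × W | Ψ (u.2, gen c (six s) u.1) ≠ t (n s) (Ψ (u.2, u.1))}) ∂P
        ≤ ∫⁻ _w, ε ∂P := by
          refine lintegral_mono_ae ?_
          filter_upwards [hPΩ] with w hw
          exact (hQ1 w hw.1).2.2 s
      _ = ε := by rw [lintegral_const, measure_univ, mul_one]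
  · refine ac_mt μ _ ?_
    refine Measure.AbsolutelyContinuous.mk fun N hN h0 => ?_
    rw [Measure.map_map measurable_fst hΦm, Measure.map_apply (measurable_fst.comp hΦm) hN]
    have h2 : MeasurableSet ((Prod.fst ∘ fun u : Y × W => Ψ (u.2, u.1)) ⁻¹' N) := (measurable_fst.comp hΦm) hN
    rw [Measure.prod_apply_symm h2, lintegral_eq_zero_iff (measurable_measure_prodMk_right h2)]
    have h3 : σ (N \ N₁) = 0 :=
      measure_mono_null (Set.sdiff_subset_sdiff_right hN₀₁) (hN₀σ N hN h0)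
    have hN2 : MeasurableSet (N \ N₁) := MeasurableSet.diff hN hN₁
    rw [hσB _ hN2, lintegral_eq_zero_iff (hmB _ hN2)] at h3
    filter_upwards [hPΩ, hPac.ae_le h3] with w hw hw3
    have hw3' : nu {y | (Ψ (w, y)).1 ∈ N \ N₁} = 0 := hw3
    have h4 : nu {y | (Ψ (w, y)).1 ∈ N₁} = 0 := by
      have h5 : MeasurableSet {y | (Ψ (w, y)).1 ∈ N₁ᶜ} := (measurable_fst.comp (hsec w)) hN₁.compl
      have h6 := (prob_compl_eq_zero_iff h5).2 hw.2
      refine measure_mono_null ?_ h6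
      intro y hy hy'
      exact hy' hy
    show nu {y | (Ψ (w, y)).1 ∈ N} = 0
    refine measure_mono_null ?_ (measure_union_null hw3' h4)
    intro y hy
    by_cases hy1 : (Ψ (w, y)).1 ∈ N₁
    · exact Or.inr hy1
    · exact Or.inl ⟨hy, hy1⟩


theorem main_weak {X : Type} [MeasurableSpace X] [StandardBorelSpace X] (μ : Measure X) [IsProbabilityMeasure μ]
    (E : X → X → Prop) (hE : CBER E) (hinv : ∀ S : X ≃ᵐ X, (∀ x, E x (S x)) → MeasurePreserving S μ μ)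
    (hU : ∀ c : T, ∀ A : Set X, MeasurableSet A → (∀ x y, E x y → (x ∈ A ↔ y ∈ A)) → μ A = 1 →
      ∃ f : Y → X, Measurable f ∧ (∀ y, f y ∈ A) ∧ (∀ y z, F c y z → E (f y) (f z)) ∧ ∀ x, (f ⁻¹' {x}).Countable) : False := by
  obtain ⟨θ, hθ⟩ := feldman_moore hE
  have hm : ∀ k, MeasurePreserving (θ k) μ μ := fun k => hinv (θ k) (hθ.sub k)
  obtain ⟨θ', hθ', hm'⟩ := gen_Et θ hθ μ hm
  obtain ⟨t, ht, htE, hd⟩ := dense_family θ' hθ'
  set ε : ENNReal := ENNReal.ofReal (1 / 1000000) with hε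
  have hε0 : ε ≠ 0 := by
    rw [hε]
    simp
  have key : ∀ c : {c : T // NonTor c}, ∃ n : Fin 6 → ℕ, ∃ (P : Measure W) (Φ : Y × W → X × ℕ),
      IsDatum (Et E) (mt μ) c.1 (fun s => t (n s)) ε P Φ := fun c =>
    exists_datum_weak μ E hE θ hθ hm c.1 c.2 (hU c.1) t ht hd ε hε0
  choose n P Φ D using key
  have hfin : ∀ c, IsFiniteMeasure ((nu.prod (P c)).map (Φ c)) := fun c => by
    haveI := (D c).prob
    infer_instance
  obtain ⟨k, hk⟩ := pigeon_dens (mt μ) (fun c => (nu.prod (P c)).map (Φ c)) hfin ε hε0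
  -- an uncountable fibre
  have hfib : ∃ v : (Fin 6 → ℕ) × ℕ, ¬ {c : {c : T // NonTor c} | (n c, k c) = v}.Countable := by
    by_contra hcon
    push Not at hcon
    have h1 : (⋃ v : (Fin 6 → ℕ) × ℕ, {c : {c : T // NonTor c} | (n c, k c) = v}).Countable :=
      Set.countable_iUnion hcon
    have h2 : (⋃ v : (Fin 6 → ℕ) × ℕ, {c : {c : T // NonTor c} | (n c, k c) = v}) = Set.univ := by
      ext c
      simp
    rw [h2] at h1
    have h3 : (Subtype.val '' (Set.univ : Set {c : T // NonTor c})).Countable := h1.image _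
    rw [Set.image_univ, Subtype.range_coe_subtype] at h3
    exact uncountable_nonTor h3
  obtain ⟨v, hv⟩ := hfib
  have hne : {c : {c : T // NonTor c} | (n c, k c) = v}.Nonempty := by
    by_contra hcon
    rw [Set.not_nonempty_iff_eq_empty] at hcon
    rw [hcon] at hv
    exact hv Set.countable_empty
  obtain ⟨c, hc⟩ := hne
  have hdep : {c' : {c : T // NonTor c} | ¬ Ind c.1 c'.1}.Countable := by
    have := (countable_dep c.1 c.2).preimage (Subtype.val_injective (p := fun c : T => NonTor c))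
    exact this
  have hex : ∃ c' : {c : T // NonTor c}, (n c', k c') = v ∧ Ind c.1 c'.1 := by
    by_contra hcon
    push Not at hcon
    exact hv (hdep.mono fun c' h => hcon c' h)
  obtain ⟨c', hc', hI⟩ := hex
  have hnc : n c = n c' := by
    have := (Prod.mk.inj (hc.trans hc'.symm)).1
    exact this
  have hkc : k c = k c' := (Prod.mk.inj (hc.trans hc'.symm)).2
  have D' := D c'
  rw [← hnc] at D'
  exact no_two (mt μ) (Et E) (measurable_Et hE.meas) θ' hθ' hm' (fun s => t (n c s)) (fun s => ht _)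
    (fun s x => htE _ x) c.1 c'.1 hI ε le_rfl (P c) (P c') (Φ c) (Φ c') (D c) D'
    (hk c c' hkc) (hk c' c hkc.symm)


end Pool.MPb8ab30
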